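import Pool.Agent.H.MP_89ce39_al.C

set_option autoImplicit false

namespace Pool.Agent.Results.MP_89ce39_al.Every

universe u

/-- projections of a semigroup with involution -/
def Proj (S : Type u) [Semigroup S] [StarMul S] : Type u := {p : S // p * p = p ∧ star p = p}

/-- the defining relations of the free projection-generated semigroup -/
inductive Rel (S : Type u) [Semigroup S] [StarMul S] :
    FreeSemigroup (Proj S) → FreeSemigroup (Proj S) → Prop
  | idem (p : Proj S) : Rel S (FreeSemigroup.of p * FreeSemigroup.of p) (FreeSemigroup.of p)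
  | sq (p q : Proj S) : Rel S (FreeSemigroup.of p * FreeSemigroup.of q *
      (FreeSemigroup.of p * FreeSemigroup.of q)) (FreeSemigroup.of p * FreeSemigroup.of q)
  | conj (p q r : Proj S) (h : r.1 = p.1 * q.1 * p.1) :
      Rel S (FreeSemigroup.of p * FreeSemigroup.of q * FreeSemigroup.of p) (FreeSemigroup.of r)

/-- the free projection-generated semigroup, by its presentation -/
abbrev PG (S : Type u) [Semigroup S] [StarMul S] : Type u := (conGen (Rel S)).Quotient

/-- Green's relation H -/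
def GreenH {T : Type u} [Semigroup T] (a b : T) : Prop :=
  (a = b ∨ ∃ y, a = b * y) ∧ (b = a ∨ ∃ y, b = a * y) ∧
    (a = b ∨ ∃ y, a = y * b) ∧ (b = a ∨ ∃ y, b = y * a)

open Pool.Agent.H.MP_89ce39_al in
theorem result (G : Type u) [Group G] :
    ∃ (S : Type u) (_ : Semigroup S) (_ : StarMul S), (∀ a : S, a * star a * a = a) ∧
      ∃ (p : Proj S) (f : G →ₙ* PG S), Function.Injective f ∧
        ∀ w : PG S, w ∈ Set.range f ↔ GreenH w (FreeSemigroup.of p : FreeSemigroup (Proj S)) := by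
  classical
  have hP : Good (P0 (LL (G := G)) RR) := good geo.data
  let pr : ∀ m ∈ P0 (LL (G := G)) RR, Proj (S _ hP) := fun m h =>
    ⟨mkS _ hP m h, mkS_proj _ hP m h⟩
  let mk : FreeSemigroup (Proj (S _ hP)) →ₙ* PG (S _ hP) :=
    { toFun := fun w => (w : PG (S _ hP)), map_mul' := fun _ _ => rfl }
  let x : MM (II G) G → PG (S _ hP) := fun m =>
    mk (FreeSemigroup.of (if h : m ∈ P0 (LL (G := G)) RR then pr m h else pr θ0 (Or.inl rfl)))
  have hx : ∀ m (h : m ∈ P0 (LL (G := G)) RR), x m = mk (FreeSemigroup.of (pr m h)) :=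
    fun m h => by simp only [x, dif_pos h]
  have rel : ∀ a b, Rel (S _ hP) a b → mk a = mk b := fun a b h =>
    (Con.eq _).2 (ConGen.Rel.of _ _ h)
  have H : Gen (LL (G := G)) RR x := by
    refine ⟨fun p hp => ?_, fun p hp q hq => ?_, fun p hp q hq => ?_⟩
    · rw [hx p hp, ← map_mul]; exact rel _ _ (Rel.idem _)
    · rw [hx p hp, hx q hq, ← map_mul, ← map_mul]; exact rel _ _ (Rel.sq _ _)
    · rw [hx p hp, hx q hq, hx _ (hP.conj p hp q hq), ← map_mul, ← map_mul]
      exact rel _ _ (Rel.conj _ _ _ (mkS_conj _ hP p q hp hq))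
  let l : FreeSemigroup (Proj (S _ hP)) →ₙ* S _ hP := FreeSemigroup.lift Subtype.val
  have hl : conGen (Rel (S _ hP)) ≤ Con.ker l := by
    refine Con.conGen_le.2 ?_
    rintro a b (p | ⟨p, q⟩ | ⟨p, q, r, h⟩)
    · exact p.2.1
    · obtain ⟨a, ha⟩ := proj_eq _ hP _ p.2.1 p.2.2
      obtain ⟨b, hb⟩ := proj_eq _ hP _ q.2.1 q.2.2
      change p.1 * q.1 * (p.1 * q.1) = p.1 * q.1
      rw [ha, hb]
      exact Subtype.ext (dg_sq hP ⟨a, rfl⟩ ⟨b, rfl⟩)
    · exact h.symm
  let Φ : PG (S _ hP) →ₙ* MM (II G) G :=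
    { toFun := fun w => Con.liftOn w (fun a => fstS _ hP (l a)) fun a b h => congrArg _ (hl h)
      map_mul' := fun a b => Con.induction_on₂ a b fun a b => by
        change fstS _ hP (l (a * b)) = fstS _ hP (l a) * fstS _ hP (l b)
        rw [map_mul, map_mul] }
  obtain ⟨ψ, h1, h2, h3⟩ := main H Φ (fun p hp => by rw [hx p hp]; rfl) (by
    intro C c1 c2 w
    induction w using Con.induction_on with
    | H w =>
      induction w using FreeSemigroup.recOnMul with
      | ih1 p =>
        obtain ⟨a, ha⟩ := proj_eq _ hP _ p.2.1 p.2.2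
        have := c1 _ a
        rw [hx _ a, show pr _ a = p from Subtype.ext ha.symm] at this
        exact this
      | ih2 p y a b => exact c2 _ _ a b)
  refine ⟨S _ hP, inferInstance, inferInstance, S_reg _ hP, pr _ (mi (II.pt (VV.v 0))), ψ, h1,
    fun w => ?_⟩
  change _ ↔ GreenH w (mk _)
  rw [← hx, ← h2]
  rw [← h2] at h3
  constructor
  · rintro ⟨g, rfl⟩
    exact ⟨Or.inr ⟨ψ g, by rw [← map_mul, one_mul]⟩, Or.inr ⟨ψ g⁻¹, by rw [← map_mul, mul_inv_cancel]⟩,
      Or.inr ⟨ψ g, by rw [← map_mul, mul_one]⟩, Or.inr ⟨ψ g⁻¹, by rw [← map_mul, inv_mul_cancel]⟩⟩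
  · rintro ⟨a, b, c, -⟩
    refine h3 w ?_ ?_ b
    · rcases a with rfl | ⟨y, rfl⟩
      · rw [← map_mul, one_mul]
      · rw [← mul_assoc, ← map_mul, one_mul]
    · rcases c with rfl | ⟨y, rfl⟩
      · rw [← map_mul, one_mul]
      · rw [mul_assoc, ← map_mul, one_mul]

end Pool.Agent.Results.MP_89ce39_al.Every
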